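import Pool.Agent.P.MP_838999_co.Defs

-- part Pool.Agent.P.MP_838999_co.Geo
section

namespace Pool.Agent.P.MP_838999_co

open Finset Combinatorics

/-- Parametrisation of a geometric line of the cube. -/
theorem line_param {k n : ℕ} (hk : 2 ≤ k) {S : Finset (Fin n → Fin k)} (hS : IsLine k n S) :
    ∃ (P : Fin k → Fin n → Fin k) (A : Fin n → Option (Fin k)), (∃ i, A i = none) ∧
      (∀ t, P t ∈ S) ∧ (∀ t i c, A i = some c → P t i = c) ∧
      (∀ t i, A i = none → P t i = t ∨ P t i = t.rev) := by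
  classical
  obtain ⟨hcard, hcol⟩ := hS
  rw [collinear_iff_exists_forall_eq_smul_vadd] at hcol
  obtain ⟨p₀, v, hv⟩ := hcol
  have hv' : ∀ x ∈ S, ∃ r : ℝ, ∀ i, ((x i : ℕ) : ℝ) + 1 = r * v i + p₀ i := by
    intro x hx
    obtain ⟨r, hr⟩ := hv _ ⟨x, hx, rfl⟩
    exact ⟨r, fun i => by simpa using congrFun hr i⟩
  choose! r hr using hv'
  have hinj : ∀ i, v i ≠ 0 → ∀ x ∈ S, ∀ y ∈ S, x i = y i → x = y := by
    intro i hi x hx y hy hxy
    have h1 := hr x hx i
    have h2 := hr y hy i
    rw [hxy] at h1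
    have h3 : r x = r y := by
      have : (r x - r y) * v i = 0 := by linarith
      rcases mul_eq_zero.1 this with h | h
      · linarith
      · exact absurd h hi
    funext j
    have h4 := hr x hx j
    have h5 := hr y hy j
    rw [h3] at h4
    have : ((x j : ℕ) : ℝ) = ((y j : ℕ) : ℝ) := by linarith
    exact Fin.ext (by exact_mod_cast this)
  have hconst : ∀ i, v i = 0 → ∀ x ∈ S, ∀ y ∈ S, x i = y i := by
    intro i hi x hx y hy
    have h4 := hr x hx i
    have h5 := hr y hy i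
    rw [hi] at h4 h5
    have : ((x i : ℕ) : ℝ) = ((y i : ℕ) : ℝ) := by linarith
    exact Fin.ext (by exact_mod_cast this)
  obtain ⟨i₀, hi₀⟩ : ∃ i, v i ≠ 0 := by
    by_contra hcon
    push Not at hcon
    have : S.card ≤ 1 := Finset.card_le_one.2 fun x hx y hy =>
      funext fun i => hconst i (hcon i) x hx y hy
    omega
  have hsurj : ∀ t : Fin k, ∃ x ∈ S, x i₀ = t := by
    have himg : S.image (fun x => x i₀) = univ := by
      apply Finset.eq_univ_of_card
      rw [Finset.card_image_of_injOn (fun x hx y hy h => hinj i₀ hi₀ x hx y hy h), hcard,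
        Fintype.card_fin]
    intro t
    have : t ∈ S.image (fun x => x i₀) := himg ▸ mem_univ t
    simpa using this
  choose P hPS hP using hsurj
  let t₀ : Fin k := ⟨0, by omega⟩
  refine ⟨P, fun i => if v i = 0 then some (P t₀ i) else none, ⟨i₀, by simp [hi₀]⟩, hPS, ?_, ?_⟩
  · intro t i c hc
    by_cases hi : v i = 0
    · simp only [hi, if_true, Option.some.injEq] at hc
      rw [← hc]
      exact hconst i hi _ (hPS t) _ (hPS t₀)
    · simp [hi] at hc
  · intro t i hc
    have hi : v i ≠ 0 := by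
      intro hi
      simp [hi] at hc
    have key : ∀ a b : Fin k, (((P a i : ℕ) : ℝ) - ((P b i : ℕ) : ℝ)) * v i₀ =
        (((a : ℕ) : ℝ) - ((b : ℕ) : ℝ)) * v i := by
      intro a b
      have h1 := hr _ (hPS a) i
      have h2 := hr _ (hPS b) i
      have h3 := hr _ (hPS a) i₀
      have h4 := hr _ (hPS b) i₀
      rw [hP] at h3 h4
      have e1 : ((P a i : ℕ) : ℝ) - ((P b i : ℕ) : ℝ) = (r (P a) - r (P b)) * v i := by linarith
      have e2 : ((a : ℕ) : ℝ) - ((b : ℕ) : ℝ) = (r (P a) - r (P b)) * v i₀ := by linarith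
      rw [e1, e2]; ring
    have key2 : ∀ a b : Fin k, ((P a i : ℕ) : ℝ) - ((P b i : ℕ) : ℝ) =
        (((a : ℕ) : ℝ) - ((b : ℕ) : ℝ)) * (v i / v i₀) := by
      intro a b
      have := key a b
      field_simp
      linarith
    have hq : v i / v i₀ ≠ 0 := div_ne_zero hi hi₀
    rcases lt_or_gt_of_ne hq with hneg | hpos
    · right
      have hm : StrictMono (fun a : Fin k => (P a i).rev) := by
        intro a b hab
        have h1 := key2 a b
        have h2 : ((a : ℕ) : ℝ) - ((b : ℕ) : ℝ) < 0 := by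
          have : ((a : ℕ) : ℝ) < ((b : ℕ) : ℝ) := by exact_mod_cast hab
          linarith
        have h3 : 0 < ((P a i : ℕ) : ℝ) - ((P b i : ℕ) : ℝ) := by
          rw [h1]; exact mul_pos_of_neg_of_neg h2 hneg
        have h4 : P b i < P a i := by
          have : ((P b i : ℕ) : ℝ) < ((P a i : ℕ) : ℝ) := by linarith
          exact_mod_cast this
        exact Fin.rev_lt_rev.2 h4
      have : (P t i).rev = t := hm.apply_eq (x := t)
      exact Fin.rev_eq_iff.1 this
    · left
      have hm : StrictMono (fun a : Fin k => P a i) := by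
        intro a b hab
        have h1 := key2 a b
        have h2 : ((a : ℕ) : ℝ) - ((b : ℕ) : ℝ) < 0 := by
          have : ((a : ℕ) : ℝ) < ((b : ℕ) : ℝ) := by exact_mod_cast hab
          linarith
        have h3 : ((P a i : ℕ) : ℝ) - ((P b i : ℕ) : ℝ) < 0 := by
          rw [h1]; exact mul_neg_of_neg_of_pos h2 hpos
        have : ((P a i : ℕ) : ℝ) < ((P b i : ℕ) : ℝ) := by linarith
        exact_mod_cast this
      exact hm.apply_eq (x := t)

/-- A combinatorial line is an edge of `H(k,n)`. -/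
theorem isLine_of_line {k n : ℕ} (l : Line (Fin k) (Fin n)) :
    IsLine k n (univ.image (fun t => l t)) := by
  classical
  obtain ⟨i₀, hi₀⟩ := l.proper
  constructor
  · rw [Finset.card_image_of_injective, Finset.card_univ, Fintype.card_fin]
    intro a b hab
    have := congrFun hab i₀
    simpa [hi₀] using this
  · rw [collinear_iff_exists_forall_eq_smul_vadd]
    refine ⟨fun i => ((l.idxFun i).elim 0 (fun c => ((c : ℕ) : ℝ))) + 1,
      fun i => (l.idxFun i).elim 1 (fun _ => 0), ?_⟩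
    rintro p ⟨x, hx, rfl⟩
    simp only [coe_image, coe_univ, Set.image_univ, Set.mem_range] at hx
    obtain ⟨t, rfl⟩ := hx
    refine ⟨((t : ℕ) : ℝ), ?_⟩
    funext i
    cases h : l.idxFun i <;> simp [h]

theorem HJ_set_nonempty {k : ℕ} (hk : 1 ≤ k) :
    {N : ℕ | ∀ n, N ≤ n → ¬ TwoColourable k n}.Nonempty := by
  classical
  obtain ⟨ι, hι, h⟩ := Line.exists_mono_in_high_dimension (Fin k) Bool
  refine ⟨Fintype.card ι, fun n hn => ?_⟩
  rintro ⟨c, hc⟩
  obtain ⟨e⟩ : Nonempty (ι ↪ Fin n) :=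
    Function.Embedding.nonempty_of_card_le (by simpa using hn)
  let z : Fin k := ⟨0, by omega⟩
  obtain ⟨l, b, hb⟩ := h (fun x => c (Function.extend e x (fun _ => z)))
  let l' : Line (Fin k) (Fin n) :=
    ⟨Function.extend e l.idxFun (fun _ => some z), by
      obtain ⟨i, hi⟩ := l.proper
      exact ⟨e i, by rw [e.injective.extend_apply]; exact hi⟩⟩
  have hl : ∀ t, l' t = Function.extend e (l t) (fun _ => z) := by
    intro t
    funext j
    by_cases hj : ∃ i, e i = j
    · obtain ⟨i, rfl⟩ := hj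
      simp [l', e.injective.extend_apply]
    · simp [l', Function.extend_apply' _ _ _ hj]
  obtain ⟨x, hx, y, hy, hxy⟩ := hc _ (isLine_of_line l')
  simp only [mem_image, mem_univ, true_and] at hx hy
  obtain ⟨t, rfl⟩ := hx
  obtain ⟨t', rfl⟩ := hy
  apply hxy
  rw [hl, hl]
  exact (hb t).trans (hb t').symm

theorem lt_HJ {k n : ℕ} (hk : 1 ≤ k) (h : TwoColourable k n) : n < HJ k := by
  by_contra hcon
  push Not at hcon
  exact Nat.sInf_mem (HJ_set_nonempty hk) n hcon h

/-- The folding step: a colouring of `[s]^n` without monochromatic combinatorial line, a symmetric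
code `g` and a separating `F` give a proper two-colouring of `H(k,n)`. -/
theorem twoColourable_of {k n s D : ℕ} (hk : 2 ≤ k) {R : Type} (W : (Fin n → Fin s) → R)
    (hW : ∀ l : Line (Fin s) (Fin n), ¬ l.IsMono W) (hs : 1 ≤ s)
    (g : Fin k → Fin D → Fin s) (hg : ∀ t, g t.rev = g t) (F : (Fin D → R) → Bool)
    (hF : ∀ ω : Fin D → Fin s → R, (∀ l, ∃ a b, ω l a ≠ ω l b) →
      ∃ t t', F (fun l => ω l (g t l)) ≠ F (fun l => ω l (g t' l))) :
    TwoColourable k n := by
  refine ⟨fun w => F (fun l => W (fun i => g (w i) l)), fun S hS => ?_⟩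
  obtain ⟨P, A, hA, hPS, h1, h2⟩ := line_param hk hS
  let L : Fin D → Line (Fin s) (Fin n) := fun l =>
    ⟨fun i => (A i).map (fun c => g c l), by
      obtain ⟨i, hi⟩ := hA
      exact ⟨i, by simp [hi]⟩⟩
  have hL : ∀ t l, (fun i => g (P t i) l) = L l (g t l) := by
    intro t l
    funext i
    cases h : A i with
    | none =>
      rcases h2 t i h with h3 | h3
      · simp [L, h, h3]
      · simp [L, h, h3, hg]
    | some c => simp [L, h, h1 t i c h]
  obtain ⟨t, t', htt⟩ := hF (fun l a => W (L l a)) (by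
    intro l
    by_contra hcon
    push Not at hcon
    exact hW (L l) ⟨W (L l ⟨0, by omega⟩), fun x => hcon _ _⟩)
  refine ⟨P t, hPS t, P t', hPS t', ?_⟩
  simp only [hL]
  exact htt

end Pool.Agent.P.MP_838999_co
end

-- part Pool.Agent.P.MP_838999_co.Reduce
section

namespace Pool.Agent.P.MP_838999_co

open Finset Combinatorics

theorem one_add_exp_le {x : ℝ} (h0 : 0 ≤ x) (h2 : x ≤ 2) :
    Real.exp x + 1 ≤ 2 * Real.exp (3 * x / 4) := by
  have h1 := Real.cosh_le_exp_half_sq (x / 2)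
  rw [Real.cosh_eq] at h1
  have e1 : Real.exp x = Real.exp (x / 2) * Real.exp (x / 2) := by
    rw [← Real.exp_add]; ring_nf
  have e2 : (1 : ℝ) = Real.exp (x / 2) * Real.exp (-(x / 2)) := by
    rw [← Real.exp_add]; simp
  have e3 : Real.exp (x / 2) * Real.exp ((x / 2) ^ 2 / 2) ≤ Real.exp (3 * x / 4) := by
    rw [← Real.exp_add]
    apply Real.exp_le_exp.2
    nlinarith
  have hp := Real.exp_pos (x / 2)
  calc Real.exp x + 1 = Real.exp (x / 2) * (Real.exp (x / 2) + Real.exp (-(x / 2))) := by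
        rw [mul_add, ← e1, ← e2]
    _ ≤ Real.exp (x / 2) * (2 * Real.exp ((x / 2) ^ 2 / 2)) := by
        apply mul_le_mul_of_nonneg_left _ hp.le
        linarith
    _ ≤ 2 * Real.exp (3 * x / 4) := by linarith

theorem first_moment {U Y : Type} [Fintype U] [Fintype Y] [DecidableEq Y] [Nonempty U]
    (m : U → Y) (K : ℕ) (η : ℝ)
    (hη : ∀ y, (∑ u, if m u = y then (1 : ℝ) else 0) ≤ η * Fintype.card U)
    (hK : K * η ≤ 2) (γ : Bool) :
    ∑ F : Y → Bool, (∑ u, if F (m u) = γ then (1 : ℝ) else 0) ^ K ≤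
      (Fintype.card U : ℝ) ^ K * 2 ^ Fintype.card Y * Real.exp (-(K : ℝ) / 4) := by
  set N : ℝ := (Fintype.card U : ℝ) with hN
  have hNpos : 0 < N := by
    rw [hN]; exact_mod_cast Fintype.card_pos
  set μ : Y → ℝ := fun y => (∑ u, if m u = y then (1 : ℝ) else 0) / N with hμ
  have hμ0 : ∀ y, 0 ≤ μ y := fun y =>
    div_nonneg (Finset.sum_nonneg fun u _ => by split_ifs <;> norm_num) hNpos.le
  have hμη : ∀ y, μ y ≤ η := fun y => by
    rw [hμ]; exact (div_le_iff₀ hNpos).2 (hη y)
  have hμ1 : ∑ y, μ y = 1 := by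
    simp only [hμ]
    rw [← Finset.sum_div, Finset.sum_comm]
    simp [hN]
  have hZ : ∀ F : Y → Bool, (∑ u, if F (m u) = γ then (1 : ℝ) else 0) =
      N * ∑ y, if F y = γ then μ y else 0 := by
    intro F
    rw [Finset.mul_sum]
    have : ∀ y, N * (if F y = γ then μ y else 0) =
        ∑ u, if m u = y then (if F y = γ then (1 : ℝ) else 0) else 0 := by
      intro y
      by_cases h : F y = γ
      · simp only [h, if_true, hμ]
        field_simp
      · simp [h]
    simp only [this]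
    rw [Finset.sum_comm]
    simp
  have hstep : ∀ F : Y → Bool, (∑ u, if F (m u) = γ then (1 : ℝ) else 0) ^ K ≤
      N ^ K * Real.exp (-(K : ℝ)) *
        ∏ y, Real.exp (if F y = γ then (K : ℝ) * μ y else 0) := by
    intro F
    rw [hZ, mul_pow, mul_assoc]
    apply mul_le_mul_of_nonneg_left _ (pow_nonneg hNpos.le _)
    set Z := ∑ y, if F y = γ then μ y else 0 with hZdef
    have hZ0 : 0 ≤ Z := Finset.sum_nonneg fun y _ => by
      split_ifs
      · exact hμ0 y
      · exact le_rfl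
    have h1 : Z ≤ Real.exp (Z - 1) := by
      have := Real.add_one_le_exp (Z - 1); linarith
    calc Z ^ K ≤ Real.exp (Z - 1) ^ K := pow_le_pow_left₀ hZ0 h1 K
      _ = _ := by
        rw [← Real.exp_nat_mul, ← Real.exp_sum, ← Real.exp_add]
        congr 1
        have : ∑ y, (if F y = γ then (K : ℝ) * μ y else 0) = K * Z := by
          rw [hZdef, Finset.mul_sum]
          exact Finset.sum_congr rfl fun y _ => by split_ifs <;> simp
        rw [this]; ring
  calc _ ≤ ∑ F : Y → Bool, N ^ K * Real.exp (-(K : ℝ)) *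
        ∏ y, Real.exp (if F y = γ then (K : ℝ) * μ y else 0) :=
        Finset.sum_le_sum fun F _ => hstep F
    _ = N ^ K * Real.exp (-(K : ℝ)) *
        ∏ y, ∑ b : Bool, Real.exp (if b = γ then (K : ℝ) * μ y else 0) := by
        rw [← Finset.mul_sum, Fintype.prod_sum]
    _ ≤ N ^ K * Real.exp (-(K : ℝ)) * ∏ y, (2 * Real.exp (3 * ((K : ℝ) * μ y) / 4)) := by
        apply mul_le_mul_of_nonneg_left _ (by positivity)
        apply Finset.prod_le_prod
        · intro y _
          exact Finset.sum_nonneg fun b _ => (Real.exp_pos _).le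
        · intro y _
          have h0 : 0 ≤ (K : ℝ) * μ y := mul_nonneg (Nat.cast_nonneg _) (hμ0 y)
          have h2 : (K : ℝ) * μ y ≤ 2 :=
            (mul_le_mul_of_nonneg_left (hμη y) (Nat.cast_nonneg _)).trans hK
          have := one_add_exp_le h0 h2
          cases γ <;> simp <;> linarith
    _ = _ := by
        rw [Finset.prod_mul_distrib, Finset.prod_const, Finset.card_univ, ← Real.exp_sum]
        have : ∑ y, 3 * ((K : ℝ) * μ y) / 4 = 3 * (K : ℝ) / 4 := by
          rw [← Finset.sum_div, ← Finset.mul_sum, ← Finset.mul_sum, hμ1, mul_one]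
        rw [this]
        have e : Real.exp (-(K : ℝ) / 4) = Real.exp (-(K : ℝ)) * Real.exp (3 * (K : ℝ) / 4) := by
          rw [← Real.exp_add]; ring_nf
        rw [e]; ring

theorem fibre_bound {s D : ℕ} {R : Type} [DecidableEq R] (ω : Fin D → Fin s → R)
    (hω : ∀ l, ∃ a b, ω l a ≠ ω l b) (hs : 1 ≤ s) (y : Fin D → R) :
    (∑ u : Fin D → Fin s, if (fun l => ω l (u l)) = y then (1 : ℝ) else 0) ≤
      (1 - 1 / (s : ℝ)) ^ D * Fintype.card (Fin D → Fin s) := by
  have hs0 : (0 : ℝ) < s := by exact_mod_cast hs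
  have h1 : ∀ u : Fin D → Fin s, (if (fun l => ω l (u l)) = y then (1 : ℝ) else 0) =
      ∏ l, if ω l (u l) = y l then (1 : ℝ) else 0 := by
    intro u
    rw [Finset.prod_boole]
    simp [funext_iff]
  simp only [h1]
  rw [← Fintype.prod_sum (fun l a => if ω l a = y l then (1 : ℝ) else 0)]
  have h2 : (1 - 1 / (s : ℝ)) ^ D * Fintype.card (Fin D → Fin s) = ∏ _l : Fin D, ((s : ℝ) - 1) := by
    simp only [Fintype.card_pi, Fintype.card_fin, Finset.prod_const, Finset.card_univ]
    push_cast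
    rw [← mul_pow]
    congr 1
    field_simp
  rw [h2]
  apply Finset.prod_le_prod
  · intro l _
    exact Finset.sum_nonneg fun a _ => by split_ifs <;> norm_num
  · intro l _
    obtain ⟨a, ha⟩ : ∃ a, ω l a ≠ y l := by
      obtain ⟨a, b, hab⟩ := hω l
      by_cases h : ω l a = y l
      · exact ⟨b, fun hb => hab (h.trans hb.symm)⟩
      · exact ⟨a, h⟩
    rw [← Finset.add_sum_erase _ _ (mem_univ a), if_neg ha, zero_add]
    calc _ ≤ ∑ _x ∈ univ.erase a, (1 : ℝ) :=
          Finset.sum_le_sum fun x _ => by split_ifs <;> norm_num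
      _ = _ := by
          rw [Finset.sum_const, Finset.card_erase_of_mem (mem_univ a), Finset.card_univ,
            Fintype.card_fin, nsmul_eq_mul, mul_one, Nat.cast_sub hs, Nat.cast_one]

theorem exists_code {s D K : ℕ} {R : Type} [Fintype R] [DecidableEq R] (hs : 1 ≤ s)
    (h1 : K * (1 - 1 / (s : ℝ)) ^ D ≤ 2)
    (h2 : 2 * (Fintype.card R : ℝ) ^ (s * D) * Real.exp (-(K : ℝ) / 4) < 1) :
    ∃ (T : Fin K → Fin D → Fin s) (F : (Fin D → R) → Bool),
      ∀ ω : Fin D → Fin s → R, (∀ l, ∃ a b, ω l a ≠ ω l b) →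
        ∃ j j', F (fun l => ω l (T j l)) ≠ F (fun l => ω l (T j' l)) := by
  classical
  have : Nonempty (Fin s) := ⟨⟨0, by omega⟩⟩
  by_contra hcon
  push Not at hcon
  let good : Finset (Fin D → Fin s → R) := univ.filter fun ω => ∀ l, ∃ a b, ω l a ≠ ω l b
  set B : ℝ := (Fintype.card (Fin D → Fin s) : ℝ) ^ K * 2 ^ Fintype.card (Fin D → R) with hB
  have hBpos : 0 < B := by
    have : (0 : ℝ) < Fintype.card (Fin D → Fin s) := by exact_mod_cast Fintype.card_pos
    positivity
  have hone : ∀ (F : (Fin D → R) → Bool) (T : Fin K → Fin D → Fin s), (1 : ℝ) ≤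
      ∑ ω ∈ good, ∑ γ : Bool, ∏ j, if F (fun l => ω l (T j l)) = γ then (1 : ℝ) else 0 := by
    intro F T
    obtain ⟨ω, hω, hc⟩ := hcon T F
    obtain ⟨γ, hγ⟩ : ∃ γ, ∀ j, F (fun l => ω l (T j l)) = γ := by
      rcases isEmpty_or_nonempty (Fin K) with h | ⟨⟨j₀⟩⟩
      · exact ⟨true, fun j => h.elim j⟩
      · exact ⟨_, fun j => hc j j₀⟩
    have hnn : ∀ (ω : Fin D → Fin s → R) (γ : Bool),
        0 ≤ ∏ j, if F (fun l => ω l (T j l)) = γ then (1 : ℝ) else 0 := fun ω γ =>
      Finset.prod_nonneg fun j _ => by split_ifs <;> norm_num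
    calc (1 : ℝ) = ∏ j, if F (fun l => ω l (T j l)) = γ then (1 : ℝ) else 0 := by simp [hγ]
      _ ≤ ∑ γ : Bool, ∏ j, if F (fun l => ω l (T j l)) = γ then (1 : ℝ) else 0 :=
          Finset.single_le_sum (f := fun γ : Bool =>
            ∏ j, if F (fun l => ω l (T j l)) = γ then (1 : ℝ) else 0)
            (fun γ _ => hnn ω γ) (mem_univ γ)
      _ ≤ _ := Finset.single_le_sum (f := fun ω : Fin D → Fin s → R => ∑ γ : Bool,
            ∏ j, if F (fun l => ω l (T j l)) = γ then (1 : ℝ) else 0)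
            (fun ω _ => Finset.sum_nonneg fun γ _ => hnn ω γ) (by simpa [good] using hω)
  have htot : B ≤ ∑ ω ∈ good, ∑ γ : Bool, ∑ F : (Fin D → R) → Bool,
      (∑ u : Fin D → Fin s, if F (fun l => ω l (u l)) = γ then (1 : ℝ) else 0) ^ K := by
    calc B = ∑ _F : (Fin D → R) → Bool, ∑ _T : Fin K → Fin D → Fin s, (1 : ℝ) := by
          simp only [Finset.sum_const, Finset.card_univ, nsmul_eq_mul, mul_one, hB,
            Fintype.card_fun (α := Fin K), Fintype.card_fun (β := Bool), Fintype.card_fin,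
            Fintype.card_bool]
          push_cast
          ring
      _ ≤ ∑ F : (Fin D → R) → Bool, ∑ T : Fin K → Fin D → Fin s, ∑ ω ∈ good, ∑ γ : Bool,
            ∏ j, if F (fun l => ω l (T j l)) = γ then (1 : ℝ) else 0 :=
          Finset.sum_le_sum fun F _ => Finset.sum_le_sum fun T _ => hone F T
      _ = ∑ F : (Fin D → R) → Bool, ∑ ω ∈ good, ∑ γ : Bool, ∑ T : Fin K → Fin D → Fin s,
            ∏ j, if F (fun l => ω l (T j l)) = γ then (1 : ℝ) else 0 := by
          refine Finset.sum_congr rfl fun F _ => ?_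
          rw [Finset.sum_comm]
          exact Finset.sum_congr rfl fun ω _ => Finset.sum_comm
      _ = _ := by
          rw [Finset.sum_comm]
          refine Finset.sum_congr rfl fun ω _ => ?_
          rw [Finset.sum_comm]
          refine Finset.sum_congr rfl fun γ _ => Finset.sum_congr rfl fun F _ => ?_
          rw [Fintype.sum_pow]
  have hup : ∑ ω ∈ good, ∑ γ : Bool, ∑ F : (Fin D → R) → Bool,
      (∑ u : Fin D → Fin s, if F (fun l => ω l (u l)) = γ then (1 : ℝ) else 0) ^ K ≤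
      ∑ _ω : Fin D → Fin s → R, ∑ _γ : Bool, B * Real.exp (-(K : ℝ) / 4) := by
    calc _ ≤ ∑ _ω ∈ good, ∑ _γ : Bool, B * Real.exp (-(K : ℝ) / 4) := by
          refine Finset.sum_le_sum fun ω hω => Finset.sum_le_sum fun γ _ => ?_
          have hω' : ∀ l, ∃ a b, ω l a ≠ ω l b := by simpa [good] using hω
          exact first_moment (fun (u : Fin D → Fin s) l => ω l (u l)) K _
            (fun y => by convert fibre_bound ω hω' hs y) h1 γ
      _ ≤ _ := Finset.sum_le_sum_of_subset_of_nonneg (Finset.subset_univ _)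
          fun _ _ _ => Finset.sum_nonneg fun _ _ => by positivity
  have hval : ∑ _ω : Fin D → Fin s → R, ∑ _γ : Bool, B * Real.exp (-(K : ℝ) / 4) =
      B * (2 * (Fintype.card R : ℝ) ^ (s * D) * Real.exp (-(K : ℝ) / 4)) := by
    simp only [Finset.sum_const, Finset.card_univ, nsmul_eq_mul, Fintype.card_bool,
      Fintype.card_fun, Fintype.card_fin]
    push_cast
    rw [pow_mul]
    ring
  have := mul_lt_mul_of_pos_left h2 hBpos
  linarith

end Pool.Agent.P.MP_838999_co
end

-- part Pool.Agent.P.MP_838999_co.Reduce2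
section

namespace Pool.Agent.P.MP_838999_co

open Finset Combinatorics

/-- The colour reduction, in a fixed dimension. -/
theorem twoColourable_of_colouring {k n s : ℕ} {R : Type} [Fintype R] [DecidableEq R]
    (hs : 2 ≤ s) (hr : 2 ≤ Fintype.card R) (hk : 2 ≤ k)
    (h : 20 * (s : ℝ) ^ 2 * Real.log (Fintype.card R) * Real.log k ≤ k)
    (W : (Fin n → Fin s) → R) (hW : ∀ l : Line (Fin s) (Fin n), ¬ l.IsMono W) :
    TwoColourable k n := by
  set r : ℝ := (Fintype.card R : ℝ) with hrdef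
  have hr2 : (2 : ℝ) ≤ r := by rw [hrdef]; exact_mod_cast hr
  have hs2 : (2 : ℝ) ≤ s := by exact_mod_cast hs
  have hk2 : (2 : ℝ) ≤ k := by exact_mod_cast hk
  have hl2 := Real.log_two_gt_d9
  have hl2' := Real.log_two_lt_d9
  have hlr : Real.log 2 ≤ Real.log r := Real.log_le_log (by norm_num) hr2
  have hlk : Real.log 2 ≤ Real.log k := Real.log_le_log (by norm_num) hk2
  have hs4 : (4 : ℝ) ≤ (s : ℝ) ^ 2 := by nlinarith
  have hA : (2.76 : ℝ) ≤ (s : ℝ) ^ 2 * Real.log r := by nlinarith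
  have hk38 : (38 : ℝ) ≤ k := by nlinarith
  have hL3 : 3 ≤ Real.log k := by
    rw [Real.le_log_iff_exp_le (by linarith)]
    have h1 := Real.exp_one_lt_d9
    have h2 : Real.exp 3 = Real.exp 1 ^ 3 := by rw [← Real.exp_nat_mul]; norm_num
    have h3 : Real.exp 1 ^ 3 ≤ 3 ^ 3 := pow_le_pow_left₀ (Real.exp_pos 1).le (by linarith) 3
    linarith
  set K : ℕ := (k + 1) / 2 with hK
  have hK1 : 1 ≤ K := by omega
  have hK0 : (0 : ℝ) < K := by exact_mod_cast hK1
  have hKk : (K : ℝ) ≤ k := by exact_mod_cast (by omega : K ≤ k)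
  have hkK : (k : ℝ) ≤ 2 * K := by exact_mod_cast (by omega : k ≤ 2 * K)
  set m : ℕ := ⌈Real.log K⌉₊ with hm
  have hm1 : Real.log K ≤ m := Nat.le_ceil _
  have hm2 : (m : ℝ) ≤ 4 / 3 * Real.log k := by
    have h1 : (m : ℝ) < Real.log K + 1 :=
      Nat.ceil_lt_add_one (Real.log_nonneg (by exact_mod_cast hK1))
    have h2 : Real.log K ≤ Real.log k := Real.log_le_log hK0 hKk
    linarith
  have h1 : K * (1 - 1 / (s : ℝ)) ^ (s * m) ≤ 2 := by
    have e1 : 1 - 1 / (s : ℝ) ≤ Real.exp (-(1 / (s : ℝ))) := by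
      have := Real.add_one_le_exp (-(1 / (s : ℝ))); linarith
    have e0 : 0 ≤ 1 - 1 / (s : ℝ) := by
      have : 1 / (s : ℝ) ≤ 1 := by rw [div_le_one (by linarith)]; linarith
      linarith
    have e2 : (1 - 1 / (s : ℝ)) ^ (s * m) ≤ Real.exp (-(1 / (s : ℝ))) ^ (s * m) :=
      pow_le_pow_left₀ e0 e1 _
    have e3 : Real.exp (-(1 / (s : ℝ))) ^ (s * m) = Real.exp (-(m : ℝ)) := by
      rw [← Real.exp_nat_mul]
      congr 1
      push_cast
      field_simp
    have e4 : Real.exp (-(m : ℝ)) ≤ Real.exp (-Real.log K) := Real.exp_le_exp.2 (by linarith)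
    rw [Real.exp_neg (Real.log K), Real.exp_log hK0] at e4
    have e5 : (K : ℝ) * (1 - 1 / (s : ℝ)) ^ (s * m) ≤ K * (K : ℝ)⁻¹ :=
      mul_le_mul_of_nonneg_left (by linarith) hK0.le
    rw [mul_inv_cancel₀ hK0.ne'] at e5
    linarith
  have h2 : 2 * r ^ (s * (s * m)) * Real.exp (-(K : ℝ) / 4) < 1 := by
    have e1 : r ^ (s * (s * m)) = Real.exp (((s * (s * m) : ℕ) : ℝ) * Real.log r) := by
      rw [Real.exp_nat_mul, Real.exp_log (by linarith)]
    have e2 : (2 : ℝ) = Real.exp (Real.log 2) := (Real.exp_log (by norm_num)).symm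
    rw [e1, e2, ← Real.exp_add, ← Real.exp_add, Real.exp_lt_one_iff]
    push_cast
    have e3 : (s : ℝ) * (s * m) * Real.log r ≤ k / 15 := by
      have : (s : ℝ) * (s * m) * Real.log r = ((s : ℝ) ^ 2 * Real.log r) * m := by ring
      rw [this]
      have := mul_le_mul_of_nonneg_left hm2 (by linarith : 0 ≤ (s : ℝ) ^ 2 * Real.log r)
      nlinarith
    linarith
  obtain ⟨T, F, hTF⟩ := exists_code (R := R) (D := s * m) (K := K) (by omega : 1 ≤ s) h1 h2
  let f : Fin k → Fin K := fun t => ⟨min (t : ℕ) (t.rev : ℕ), by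
    have := t.2
    rw [Fin.val_rev]
    omega⟩
  have hf : ∀ t, f t.rev = f t := fun t => by
    apply Fin.ext
    simp only [f, Fin.rev_rev]
    exact min_comm _ _
  have hfs : ∀ j, ∃ t, f t = j := fun j => by
    have := j.2
    refine ⟨⟨j, by omega⟩, Fin.ext ?_⟩
    simp only [f, Fin.val_rev]
    omega
  refine twoColourable_of hk W hW (by omega) (fun t => T (f t)) (fun t => by rw [hf]) F ?_
  intro ω hω
  obtain ⟨j, j', hjj⟩ := hTF ω hω
  obtain ⟨t, rfl⟩ := hfs j
  obtain ⟨t', rfl⟩ := hfs j'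
  exact ⟨t, t', hjj⟩

/-- The colour reduction for the numbers `HJ`. -/
theorem colour_reduction (s r k : ℕ) (hs : 2 ≤ s) (hr : 2 ≤ r) (hk : 2 ≤ k)
    (h : 20 * (s : ℝ) ^ 2 * Real.log r * Real.log k ≤ k) (n : ℕ) (hn : HJ k ≤ n)
    (c : (Fin n → Fin s) → Fin r) : ∃ l : Line (Fin s) (Fin n), l.IsMono c := by
  by_contra hcon
  push Not at hcon
  have := lt_HJ (by omega) (twoColourable_of_colouring (R := Fin r) hs (by simpa using hr) hk
    (by simpa using h) c hcon)
  omega

end Pool.Agent.P.MP_838999_co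
end
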