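import Mathlib
import Pool.Agent.K.MP_838999_co.C0

-- part Pool.Agent.P.MP_838999_co.Cyl
section

namespace Pool.Agent.P.MP_838999_co

open Finset Combinatorics Polynomial

/-- The alternating sum over a large cube of a `2^m`-periodic integer function is divisible by a
large power of two. -/
theorem cylinder_identity {ι : Type} [Fintype ι] [DecidableEq ι] (m a : ℕ) (hm : 1 ≤ m)
    (G : ℕ → ℤ) (hG : ∀ n, G (n + 2 ^ m) = G n) (u : ι → ℕ) (h : 2 ^ m * a ≤ Fintype.card ι) :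
    (2 : ℤ) ^ a ∣ ∑ J : Finset ι, (-1) ^ J.card * G (∑ j ∈ Jᶜ, u j) := by
  let Φ : ℤ[X] →ₗ[ℤ] ℤ := (Polynomial.basisMonomials ℤ).constr ℤ G
  have hΦm : ∀ n, Φ (monomial n 1) = G n := fun n => by
    have := (Polynomial.basisMonomials ℤ).constr_basis ℤ G n
    simpa [Φ] using this
  have hΦ : ∀ n, Φ (X ^ n) = G n := fun n => by rw [← hΦm, monomial_one_right_eq_X_pow]
  have hper : ∀ q : ℤ[X], Φ (X ^ (2 ^ m) * q) = Φ q := by
    intro q
    induction q using Polynomial.induction_on' with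
    | add p q hp hq => rw [mul_add, map_add, map_add, hp, hq]
    | monomial n c =>
      have e1 : (monomial n c : ℤ[X]) = c • X ^ n := by
        rw [← C_mul_X_pow_eq_monomial, smul_eq_C_mul]
      rw [e1, mul_smul_comm, map_smul, map_smul, ← pow_add, hΦ, hΦ, add_comm, hG]
  obtain ⟨r, hr⟩ := exists_add_pow_prime_pow_eq Nat.prime_two (X : ℤ[X]) (-1) m
  have hev : ((-1 : ℤ[X])) ^ (2 ^ m) = 1 := by
    apply Even.neg_one_pow
    exact (Nat.even_pow' (by omega)).2 (by norm_num)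
  have h1 : (X - 1 : ℤ[X]) ^ (2 ^ m) - 2 * (1 - X * r) = X ^ (2 ^ m) - 1 := by
    rw [sub_eq_add_neg X 1, hr, hev]
    push_cast
    ring
  have h2 : (X ^ (2 ^ m) - 1 : ℤ[X]) ∣ ((X - 1) ^ (2 ^ m)) ^ a - (2 * (1 - X * r)) ^ a := by
    rw [← h1]; exact sub_dvd_pow_sub_pow _ _ _
  have h3 : ((X - 1 : ℤ[X]) ^ (2 ^ m)) ^ a ∣ ∏ j, (X ^ u j - 1) := by
    rw [← pow_mul]
    refine (pow_dvd_pow _ h).trans ?_
    rw [← Finset.card_univ, ← Finset.prod_const]
    apply Finset.prod_dvd_prod_of_dvd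
    intro j _
    simpa using sub_dvd_pow_sub_pow (X : ℤ[X]) 1 (u j)
  obtain ⟨A, hA⟩ := h2
  obtain ⟨B, hB⟩ := h3
  have h4 : ∏ j, (X ^ u j - 1 : ℤ[X]) =
      X ^ (2 ^ m) * (A * B) - A * B + ((2 : ℤ) ^ a) • ((1 - X * r) ^ a * B) := by
    rw [hB]
    have : ((X - 1 : ℤ[X]) ^ (2 ^ m)) ^ a =
        (X ^ (2 ^ m) - 1) * A + (2 * (1 - X * r)) ^ a := by rw [← hA]; ring
    rw [this, mul_pow, zsmul_eq_mul]
    push_cast
    ring
  have h5 : Φ (∏ j, (X ^ u j - 1 : ℤ[X])) =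
      ∑ J : Finset ι, (-1) ^ J.card * G (∑ j ∈ Jᶜ, u j) := by
    rw [Finset.prod_sub, Finset.powerset_univ, map_sum]
    refine Finset.sum_congr rfl fun J _ => ?_
    rw [Finset.prod_const_one, mul_one, Finset.prod_pow_eq_pow_sum, ← Finset.compl_eq_univ_sdiff]
    have : ((-1 : ℤ[X])) ^ J.card * X ^ (∑ j ∈ Jᶜ, u j) =
        ((-1 : ℤ) ^ J.card) • X ^ (∑ j ∈ Jᶜ, u j) := by
      rw [zsmul_eq_mul]; push_cast; ring
    rw [this, map_smul, hΦ, smul_eq_mul]
  rw [← h5, h4, map_add, map_sub, hper, sub_self, zero_add, map_smul, smul_eq_mul]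
  exact dvd_mul_right _ _

/-- A family of functions, the `j`-th blind to the `j`-th count, whose sum separates the total `n`
from the smaller totals, colours the cube without monochromatic line. -/
theorem colouring_of_blind {s n : ℕ} (hs : 1 ≤ s) {A : Type} [AddCommMonoid A]
    (φ : Fin s → (Fin s → ℕ) → A)
    (hφ : ∀ j v v', (∀ i, i ≠ j → v i = v' i) → φ j v = φ j v')
    (hsep : ∀ v v' : Fin s → ℕ, ∑ j, v j = n → ∑ j, v' j < n → ∑ j, φ j v ≠ ∑ j, φ j v') :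
    ∃ W : (Fin n → Fin s) → (Fin s → A), ∀ l : Line (Fin s) (Fin n), ¬ l.IsMono W := by
  classical
  let cnt : (Fin n → Fin s) → Fin s → ℕ := fun w j => (univ.filter fun i => w i = j).card
  have hcnt : ∀ w, ∑ j, cnt w j = n := by
    intro w
    have := Finset.card_eq_sum_card_fiberwise (s := (univ : Finset (Fin n)))
      (t := (univ : Finset (Fin s))) (f := w) (fun _ _ => by simp)
    simp only [Finset.card_univ, Fintype.card_fin] at this
    exact this.symm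
  refine ⟨fun w j => φ j (cnt w), ?_⟩
  rintro l ⟨c, hc⟩
  let z : Fin s := ⟨0, by omega⟩
  let v : Fin s → ℕ := fun j => (univ.filter fun i => l.idxFun i = some j).card
  have hv : ∀ a j, j ≠ a → cnt (l a) j = v j := by
    intro a j hj
    simp only [cnt, v]
    congr 1
    ext i
    rw [Finset.mem_filter, Finset.mem_filter]
    cases h : l.idxFun i <;> simp [h, hj.symm]
  have hlt : ∑ j, v j < n := by
    rw [← hcnt (l z)]
    apply Finset.sum_lt_sum
    · intro j _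
      apply Finset.card_le_card
      intro i hi
      simp only [mem_filter, mem_univ, true_and] at hi ⊢
      simp [hi]
    · refine ⟨z, mem_univ _, ?_⟩
      apply Finset.card_lt_card
      obtain ⟨i₀, hi₀⟩ := l.proper
      refine ⟨?_, ?_⟩
      · intro i hi
        simp only [mem_filter, mem_univ, true_and] at hi ⊢
        simp [hi]
      · intro hsub
        have : i₀ ∈ univ.filter fun i => l.idxFun i = some z := 
          hsub (Finset.mem_filter.2 ⟨mem_univ _, by simp [hi₀]⟩)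
        simp [hi₀] at this
  apply hsep (cnt (l z)) v (hcnt _) hlt
  refine Finset.sum_congr rfl fun j _ => ?_
  have h1 : φ j (cnt (l z)) = φ j (cnt (l j)) :=
    (congrFun (hc z) j).trans (congrFun (hc j) j).symm
  rw [h1]
  exact hφ j _ _ fun i hi => hv j i hi

/-- From cylinder functions to blind functions. -/
theorem colouring_of_cylinders {s n : ℕ} (hs : 1 ≤ s) (q : ℕ)
    (E : Finset (Fin s) → (Fin s → ℕ) → ℤ)
    (hE : ∀ J v v', (∀ i, i ∉ J → v i = v' i) → E J v = E J v')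
    (hdiv : ∀ v, (q : ℤ) ∣ ∑ J, E J v)
    (hsep : ∀ v v' : Fin s → ℕ, ∑ j, v j = n → ∑ j, v' j < n → ¬ (q : ℤ) ∣ E ∅ v - E ∅ v') :
    ∃ W : (Fin n → Fin s) → (Fin s → ZMod q), ∀ l : Line (Fin s) (Fin n), ¬ l.IsMono W := by
  classical
  let z : Fin s := ⟨0, by omega⟩
  let ch : Finset (Fin s) → Fin s := fun J => if h : J.Nonempty then h.choose else z
  have hch : ∀ J : Finset (Fin s), J ≠ ∅ → ch J ∈ J := by
    intro J hJ
    have h : J.Nonempty := Finset.nonempty_iff_ne_empty.2 hJ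
    simp only [ch, h, dif_pos]
    exact h.choose_spec
  let φ : Fin s → (Fin s → ℕ) → ZMod q := fun j v =>
    ∑ J ∈ (univ.erase ∅).filter (fun J => ch J = j), ((E J v : ℤ) : ZMod q)
  have hsum : ∀ v, ∑ j, φ j v = -((E ∅ v : ℤ) : ZMod q) := by
    intro v
    simp only [φ]
    rw [Finset.sum_fiberwise_of_maps_to (fun _ _ => mem_univ _)]
    have h1 : ((∑ J, E J v : ℤ) : ZMod q) = 0 := (ZMod.intCast_zmod_eq_zero_iff_dvd _ _).2 (hdiv v)
    rw [← Finset.add_sum_erase _ _ (mem_univ ∅)] at h1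
    push_cast at h1
    exact eq_neg_of_add_eq_zero_right h1
  refine colouring_of_blind hs φ ?_ ?_
  · intro j v v' hvv
    refine Finset.sum_congr rfl fun J hJ => ?_
    simp only [mem_filter, mem_erase, mem_univ, and_true] at hJ
    rw [hE J v v' fun i hi => hvv i ?_]
    rintro rfl
    exact hi (hJ.2 ▸ hch J hJ.1)
  · intro v v' hv hv' heq
    rw [hsum, hsum, neg_inj] at heq
    apply hsep v v' hv hv'
    rw [← ZMod.intCast_zmod_eq_zero_iff_dvd]
    push_cast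
    rw [heq, sub_self]

end Pool.Agent.P.MP_838999_co
end

-- part Pool.Agent.P.MP_838999_co.Bias
section

namespace Pool.Agent.P.MP_838999_co

open Finset

/-- Sampling: finitely many bounded functions of negative mean have negative sums along one short
list of sample points. -/
theorem sampling {Ω V : Type} [Fintype Ω] [Nonempty Ω] (S : Finset V) (Y : V → Ω → ℝ) (ε : ℝ)
    (hε0 : 0 ≤ ε) (hε : ε ≤ 4) (hb : ∀ v ∈ S, ∀ ω, |Y v ω| ≤ 2)
    (hm : ∀ v ∈ S, ∑ ω, Y v ω ≤ -ε * Fintype.card Ω) (T : ℕ)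
    (hT : S.card * Real.exp (-(T * ε ^ 2 / 16)) < 1) :
    ∃ ω : Fin T → Ω, ∀ v ∈ S, ∑ i, Y v (ω i) < 0 := by
  classical
  by_contra hcon
  push Not at hcon
  set N : ℝ := (Fintype.card Ω : ℝ) with hN
  have hNpos : 0 < N := by rw [hN]; exact_mod_cast Fintype.card_pos
  have hone : ∀ ω : Fin T → Ω, (1 : ℝ) ≤ ∑ v ∈ S, ∏ i, Real.exp (ε / 8 * Y v (ω i)) := by
    intro ω
    obtain ⟨v, hv, h0⟩ := hcon ω
    calc (1 : ℝ) ≤ ∏ i, Real.exp (ε / 8 * Y v (ω i)) := by
          rw [← Real.exp_sum, ← Finset.mul_sum]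
          exact Real.one_le_exp (mul_nonneg (by linarith) h0)
      _ ≤ _ := Finset.single_le_sum (f := fun v => ∏ i, Real.exp (ε / 8 * Y v (ω i)))
          (fun v _ => Finset.prod_nonneg fun i _ => (Real.exp_pos _).le) hv
  have hmgf : ∀ v ∈ S, ∑ ω, Real.exp (ε / 8 * Y v ω) ≤ N * Real.exp (-(ε ^ 2 / 16)) := by
    intro v hv
    have h1 : ∀ ω, Real.exp (ε / 8 * Y v ω) ≤ 1 + ε / 8 * Y v ω + ε ^ 2 / 16 := by
      intro ω
      have h2 := hb v hv ω
      have h3 : |ε / 8 * Y v ω| ≤ 1 := by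
        rw [abs_mul, abs_of_nonneg (by linarith : 0 ≤ ε / 8)]
        nlinarith [abs_nonneg (Y v ω)]
      have h4 := (abs_le.1 (Real.abs_exp_sub_one_sub_id_le h3)).2
      have h5 : (Y v ω) ^ 2 ≤ 4 := by
        have := abs_le.1 h2
        nlinarith
      have h6 : (ε / 8 * Y v ω) ^ 2 ≤ ε ^ 2 / 16 := by
        rw [mul_pow]
        nlinarith [sq_nonneg ε]
      linarith
    calc _ ≤ ∑ ω, (1 + ε / 8 * Y v ω + ε ^ 2 / 16) := Finset.sum_le_sum fun ω _ => h1 ω
      _ = N + ε / 8 * ∑ ω, Y v ω + N * (ε ^ 2 / 16) := by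
          simp only [Finset.sum_add_distrib, Finset.sum_const, Finset.card_univ, nsmul_eq_mul,
            mul_one, ← Finset.mul_sum, hN]
      _ ≤ N * (1 - ε ^ 2 / 16) := by
          have := mul_le_mul_of_nonneg_left (hm v hv) (by linarith : 0 ≤ ε / 8)
          nlinarith
      _ ≤ _ := by
          apply mul_le_mul_of_nonneg_left _ hNpos.le
          have := Real.add_one_le_exp (-(ε ^ 2 / 16)); linarith
  have htot : N ^ T ≤ S.card * (N ^ T * Real.exp (-(T * ε ^ 2 / 16))) := by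
    calc N ^ T = ∑ _ω : Fin T → Ω, (1 : ℝ) := by simp [hN]
      _ ≤ ∑ ω : Fin T → Ω, ∑ v ∈ S, ∏ i, Real.exp (ε / 8 * Y v (ω i)) :=
          Finset.sum_le_sum fun ω _ => hone ω
      _ = ∑ v ∈ S, (∑ ω, Real.exp (ε / 8 * Y v ω)) ^ T := by
          rw [Finset.sum_comm]
          exact Finset.sum_congr rfl fun v _ => by rw [Fintype.sum_pow]
      _ ≤ ∑ _v ∈ S, (N * Real.exp (-(ε ^ 2 / 16))) ^ T :=
          Finset.sum_le_sum fun v hv => pow_le_pow_left₀
            (Finset.sum_nonneg fun ω _ => (Real.exp_pos _).le) (hmgf v hv) T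
      _ = _ := by
          rw [Finset.sum_const, nsmul_eq_mul, mul_pow, ← Real.exp_nat_mul]
          congr 3
          ring
  have hp : 0 < N ^ T := pow_pos hNpos T
  have := mul_lt_mul_of_pos_left hT hp
  nlinarith

/-- A sign function, odd under the shift by `θ`, whose correlation with a distribution is at
least the Fourier coefficient at a character that is odd under the shift. -/
theorem exists_bias {A Ω : Type} [AddCommGroup A] [Fintype A] [Fintype Ω]
    (θ : A) (hθ : θ + θ = 0) (χ : AddChar A ℂ) (hχ : χ θ = -1) (σ : Ω → A) :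
    ∃ F : A → ℤ, (∀ y, |F y| ≤ 1) ∧ (∀ y, F (y + θ) = -F y) ∧
      ‖∑ t, χ (σ t)‖ ≤ ∑ t, (F (σ t) : ℝ) := by
  classical
  let ν : A → ℤ := fun y => ∑ t, if σ t = y then 1 else 0
  let d : A → ℤ := fun y => ν y - ν (y + θ)
  have hd : ∀ y, d (y + θ) = -d y := by
    intro y
    simp only [d]
    rw [add_assoc, hθ, add_zero]; ring
  have hFodd : ∀ y, (d (y + θ)).sign = -(d y).sign := fun y => by rw [hd, Int.sign_neg]
  refine ⟨fun y => (d y).sign, fun y => ?_, hFodd, ?_⟩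
  · show |(d y).sign| ≤ 1
    rcases lt_trichotomy (d y) 0 with h | h | h
    · rw [Int.sign_eq_neg_one_of_neg h]; norm_num
    · rw [h]; norm_num
    · rw [Int.sign_eq_one_of_pos h]; norm_num
  · have hgen : ∀ f : A → ℂ, (∀ y, f (y + θ) = -f y) →
        2 * ∑ t, f (σ t) = ∑ y, (d y : ℂ) * f y := by
      intro f hf
      have h1 : ∑ t, f (σ t) = ∑ y, (ν y : ℂ) * f y := by
        simp only [ν]
        push_cast
        simp only [Finset.sum_mul]
        rw [Finset.sum_comm]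
        simp
      have h2 : ∑ y, (ν (y + θ) : ℂ) * f (y + θ) = ∑ y, (ν y : ℂ) * f y :=
        Equiv.sum_comp (Equiv.addRight θ) (fun y => (ν y : ℂ) * f y)
      simp only [hf, mul_neg, Finset.sum_neg_distrib] at h2
      simp only [d]
      push_cast
      simp only [sub_mul, Finset.sum_sub_distrib]
      rw [h1, two_mul, sub_eq_add_neg, h2]
    have h1 := hgen (fun y => χ y) (fun y => by rw [AddChar.map_add_eq_mul, hχ]; ring)
    have h2 := hgen (fun y => (((d y).sign : ℤ) : ℂ)) (fun y => by rw [hFodd]; push_cast; ring)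
    have h3 : 2 * ∑ t, (((d (σ t)).sign : ℤ) : ℝ) = ∑ y, |(d y : ℝ)| := by
      have h4 : ∀ y, (d y : ℂ) * (((d y).sign : ℤ) : ℂ) = ((|(d y : ℝ)| : ℝ) : ℂ) := by
        intro y
        rw [← Int.cast_mul, Int.mul_sign_self, ← Int.cast_abs, Complex.ofReal_intCast,
          Int.natCast_natAbs]
      simp only [h4] at h2
      exact_mod_cast h2
    have h5 : 2 * ‖∑ t, χ (σ t)‖ ≤ ∑ y, |(d y : ℝ)| := by
      calc 2 * ‖∑ t, χ (σ t)‖ = ‖2 * ∑ t, χ (σ t)‖ := by simp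
        _ = ‖∑ y, (d y : ℂ) * χ y‖ := by rw [h1]
        _ ≤ ∑ y, ‖(d y : ℂ) * χ y‖ := norm_sum_le _ _
        _ = _ := Finset.sum_congr rfl fun y _ => by
            rw [norm_mul, AddChar.norm_apply, mul_one, Complex.norm_intCast]
    linarith

end Pool.Agent.P.MP_838999_co
end

-- part Pool.Agent.P.MP_838999_co.Many
section

namespace Pool.Agent.P.MP_838999_co

open Finset Combinatorics

theorem char_half (R : ℕ) [NeZero (128 * R)] :
    ZMod.stdAddChar (((64 * R : ℕ) : ZMod (128 * R))) = -1 := by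
  have hR : (R : ℂ) ≠ 0 := by
    have := NeZero.ne (128 * R)
    exact_mod_cast (by omega : R ≠ 0)
  have := ZMod.stdAddChar_coe (N := 128 * R) ((64 * R : ℕ) : ℤ)
  rw [Int.cast_natCast] at this
  rw [this, ← Complex.exp_pi_mul_I]
  congr 1
  push_cast
  field_simp
  ring

theorem half_add_half (R : ℕ) :
    ((64 * R : ℕ) : ZMod (128 * R)) + ((64 * R : ℕ) : ZMod (128 * R)) = 0 := by
  rw [← Nat.cast_add, show 64 * R + 64 * R = 128 * R by ring, ZMod.natCast_self]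

theorem char_sum_ge (R : ℕ) [NeZero (128 * R)] :
    (1 - 20 / 16384 : ℝ) * ((128 * R : ℕ) : ℝ) ≤
      ‖∑ x : ZMod (128 * R), ZMod.stdAddChar (((x.val % R : ℕ) : ZMod (128 * R)))‖ := by
  have hR0 : 0 < R := by
    have := NeZero.ne (128 * R)
    omega
  have hR : (0 : ℝ) < R := by exact_mod_cast hR0
  refine le_trans ?_ (Complex.re_le_norm _)
  rw [Complex.re_sum]
  have h1 : ∀ x : ZMod (128 * R), (1 - 20 / 16384 : ℝ) ≤
      (ZMod.stdAddChar (((x.val % R : ℕ) : ZMod (128 * R)))).re := by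
    intro x
    set e : ℕ := x.val % R with he
    have heR : (e : ℝ) ≤ R := by exact_mod_cast (Nat.mod_lt _ hR0).le
    have he0 : (0 : ℝ) ≤ e := Nat.cast_nonneg _
    have := ZMod.stdAddChar_coe (N := 128 * R) (e : ℤ)
    rw [Int.cast_natCast] at this
    rw [this]
    have h2 : (2 * Real.pi * Complex.I * ((e : ℤ) : ℂ) / ((128 * R : ℕ) : ℂ)) =
        ((2 * Real.pi * e / (128 * R) : ℝ) : ℂ) * Complex.I := by
      push_cast; ring
    rw [h2, Complex.exp_ofReal_mul_I_re]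
    refine le_trans ?_ Real.one_sub_sq_div_two_le_cos
    have h3 : 2 * Real.pi * e / (128 * R) ≤ Real.pi / 64 := by
      rw [div_le_div_iff₀ (by positivity) (by norm_num)]
      nlinarith [Real.pi_pos]
    have h4 : 0 ≤ 2 * Real.pi * e / (128 * R) := by positivity
    have h5 : (2 * Real.pi * e / (128 * R)) ^ 2 ≤ (Real.pi / 64) ^ 2 := pow_le_pow_left₀ h4 h3 2
    have h6 := Real.pi_lt_d2
    have h7 : (Real.pi / 64) ^ 2 ≤ 10 / 4096 := by nlinarith [Real.pi_pos]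
    linarith
  calc _ = ∑ _x : ZMod (128 * R), (1 - 20 / 16384 : ℝ) := by
        rw [Finset.sum_const, Finset.card_univ, ZMod.card, nsmul_eq_mul, mul_comm]
    _ ≤ _ := Finset.sum_le_sum fun x _ => h1 x

theorem exists_shift {b h : ℕ} (h1 : 1 ≤ h) (h2 : h ≤ 2 ^ b) :
    ∃ ρ : ZMod (128 * 2 ^ b), ρ * (h : ZMod (128 * 2 ^ b)) = ((64 * 2 ^ b : ℕ) : ZMod _) := by
  obtain ⟨c, m, ⟨k, rfl⟩, rfl⟩ := Nat.exists_eq_two_pow_mul_odd (by omega : h ≠ 0)
  have hc : c ≤ b := by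
    have : 2 ^ c ≤ 2 ^ b := le_trans (Nat.le_mul_of_pos_right _ (by omega)) h2
    exact (Nat.pow_le_pow_iff_right (by norm_num)).1 this
  obtain ⟨d, rfl⟩ := Nat.exists_eq_add_of_le hc
  refine ⟨((64 * 2 ^ d : ℕ) : ZMod _), ?_⟩
  rw [← Nat.cast_mul, show 64 * 2 ^ d * (2 ^ c * (2 * k + 1)) =
    128 * 2 ^ (c + d) * k + 64 * 2 ^ (c + d) by ring, Nat.cast_add, Nat.cast_mul (128 * 2 ^ (c + d)),
    ZMod.natCast_self, zero_mul, zero_add]

/-- The test function of one sample. -/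
def sampleFn {s : ℕ} (R : ℕ) (F : ZMod (128 * R) → ℤ) (n : ℕ)
    (ω : ZMod (128 * R) × (Fin s → ZMod (128 * R))) (J : Finset (Fin s)) (v : Fin s → ℕ) : ℤ :=
  F (ω.1 * n + ∑ j, ω.2 j -
    (R : ZMod (128 * R)) * ((∑ j ∈ Jᶜ, (ω.1 * (v j : ZMod (128 * R)) + ω.2 j).val / R : ℕ) :
      ZMod (128 * R)))

theorem sampleFn_empty {s : ℕ} (R : ℕ) [NeZero (128 * R)] (F : ZMod (128 * R) → ℤ) (h : ℕ)
    (ω : ZMod (128 * R) × (Fin s → ZMod (128 * R))) (v : Fin s → ℕ) :
    sampleFn R F (∑ j, v j + h) ω ∅ v =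
      F (ω.1 * h + ∑ j, (((ω.1 * (v j : ZMod (128 * R)) + ω.2 j).val % R : ℕ) :
        ZMod (128 * R))) := by
  unfold sampleFn
  congr 1
  have h1 : ∀ t : ZMod (128 * R), ((t.val % R : ℕ) : ZMod (128 * R)) =
      t - (R : ZMod (128 * R)) * ((t.val / R : ℕ) : ZMod (128 * R)) := by
    intro t
    have := congrArg (fun x : ℕ => (x : ZMod (128 * R))) (Nat.mod_add_div t.val R)
    simp only [Nat.cast_add, Nat.cast_mul, ZMod.natCast_zmod_val] at this
    exact eq_sub_of_add_eq this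
  simp only [h1, Finset.compl_empty, Nat.cast_sum, Nat.cast_add, Finset.sum_sub_distrib,
    Finset.sum_add_distrib, Finset.mul_sum, mul_add]
  ring

theorem sum_sampleFn {s : ℕ} (R : ℕ) [NeZero (128 * R)] (F : ZMod (128 * R) → ℤ) (h : ℕ)
    (v : Fin s → ℕ) :
    ∑ ω : ZMod (128 * R) × (Fin s → ZMod (128 * R)), (sampleFn R F (∑ j, v j + h) ω ∅ v : ℝ) =
      ∑ ρ : ZMod (128 * R), ∑ t : Fin s → ZMod (128 * R),
        (F (ρ * h + ∑ j, (((t j).val % R : ℕ) : ZMod (128 * R))) : ℝ) := by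
  rw [Fintype.sum_prod_type]
  refine Finset.sum_congr rfl fun ρ _ => ?_
  simp only [sampleFn_empty]
  exact Equiv.sum_comp (Equiv.addLeft (fun j => ρ * (v j : ZMod (128 * R))))
    (fun t : Fin s → ZMod (128 * R) =>
      (F (ρ * h + ∑ j, (((t j).val % R : ℕ) : ZMod (128 * R))) : ℝ))

theorem exists_test (s b : ℕ) :
    ∃ F : ZMod (128 * 2 ^ b) → ℤ, (∀ y, |F y| ≤ 1) ∧
      (∀ v : Fin s → ℕ, (1 - 20 / 16384 : ℝ) ^ s *
          Fintype.card (ZMod (128 * 2 ^ b) × (Fin s → ZMod (128 * 2 ^ b))) ≤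
        ∑ ω : ZMod (128 * 2 ^ b) × (Fin s → ZMod (128 * 2 ^ b)),
          (sampleFn (2 ^ b) F (∑ j, v j) ω ∅ v : ℝ)) ∧
      (∀ (v : Fin s → ℕ) (n : ℕ), ∑ j, v j < n → n ≤ 2 ^ b →
        ∑ ω : ZMod (128 * 2 ^ b) × (Fin s → ZMod (128 * 2 ^ b)),
          (sampleFn (2 ^ b) F n ω ∅ v : ℝ) = 0) := by
  obtain ⟨F, hF1, hF2, hF3⟩ := exists_bias _ (half_add_half (2 ^ b)) ZMod.stdAddChar
    (char_half (2 ^ b)) (fun t : Fin s → ZMod (128 * 2 ^ b) =>
      ∑ j, (((t j).val % 2 ^ b : ℕ) : ZMod (128 * 2 ^ b)))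
  refine ⟨F, hF1, fun v => ?_, fun v n hv hn => ?_⟩
  · have h1 := sum_sampleFn (2 ^ b) F 0 v
    rw [add_zero] at h1
    rw [h1]
    simp only [Nat.cast_zero, mul_zero, zero_add]
    rw [Finset.sum_const, Finset.card_univ, nsmul_eq_mul, Fintype.card_prod, Nat.cast_mul,
      mul_left_comm]
    apply mul_le_mul_of_nonneg_left _ (Nat.cast_nonneg _)
    refine le_trans ?_ hF3
    have h2 : ∀ t : Fin s → ZMod (128 * 2 ^ b),
        ZMod.stdAddChar (∑ j, (((t j).val % 2 ^ b : ℕ) : ZMod (128 * 2 ^ b))) =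
          ∏ j, ZMod.stdAddChar ((((t j).val % 2 ^ b : ℕ) : ZMod (128 * 2 ^ b))) := by
      intro t
      induction (univ : Finset (Fin s)) using Finset.induction_on with
      | empty => simp
      | insert a u ha ih => rw [Finset.sum_insert ha, Finset.prod_insert ha,
          AddChar.map_add_eq_mul, ih]
    simp only [h2]
    rw [← Fintype.sum_pow (fun x : ZMod (128 * 2 ^ b) =>
      ZMod.stdAddChar (((x.val % 2 ^ b : ℕ) : ZMod (128 * 2 ^ b)))), norm_pow,
      Fintype.card_fun, ZMod.card, Fintype.card_fin, Nat.cast_pow, ← mul_pow]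
    exact pow_le_pow_left₀ (by positivity) (char_sum_ge (2 ^ b)) s
  · obtain ⟨h, rfl⟩ := Nat.exists_eq_add_of_le hv.le
    rw [sum_sampleFn]
    obtain ⟨ρ₀, hρ₀⟩ := exists_shift (b := b) (h := h) (by omega) (by omega)
    set H : ZMod (128 * 2 ^ b) → ℝ := fun ρ => ∑ t : Fin s → ZMod (128 * 2 ^ b),
        (F (ρ * h + ∑ j, (((t j).val % 2 ^ b : ℕ) : ZMod (128 * 2 ^ b))) : ℝ) with hH
    have h1 : ∀ ρ, H (ρ + ρ₀) = -H ρ := by
      intro ρ
      simp only [hH]
      rw [← Finset.sum_neg_distrib]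
      refine Finset.sum_congr rfl fun t _ => ?_
      rw [add_mul, hρ₀, add_right_comm, hF2]
      push_cast; ring
    have h2 : ∑ ρ, H (ρ + ρ₀) = ∑ ρ, H ρ := Equiv.sum_comp (Equiv.addRight ρ₀) H
    simp only [h1, Finset.sum_neg_distrib] at h2
    linarith

end Pool.Agent.P.MP_838999_co
end

-- part Pool.Agent.P.MP_838999_co.Many2
section

namespace Pool.Agent.P.MP_838999_co

open Finset Combinatorics

theorem many_colours_core (a b n T : ℕ) (ha : 1 ≤ a) (hn : n ≤ 2 ^ b) (hT1 : 2 * T < 2 ^ a)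
    (hT2 : ((n : ℝ) + 1) ^ (128 * a) *
      Real.exp (-(T * ((1 - 20 / 16384 : ℝ) ^ (128 * a) / 2) ^ 2 / 16)) < 1) :
    ∃ W : (Fin n → Fin (128 * a)) → (Fin (128 * a) → ZMod (2 ^ a)),
      ∀ l : Line (Fin (128 * a)) (Fin n), ¬ l.IsMono W := by
  classical
  obtain ⟨F, hF1, hF2, hF3⟩ := exists_test (128 * a) b
  set δ : ℝ := (1 - 20 / 16384 : ℝ) ^ (128 * a) with hδ
  have hδ0 : 0 < δ := by positivity
  have hδ1 : δ ≤ 1 := pow_le_one₀ (by norm_num) (by norm_num)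
  let S : Finset (Fin (128 * a) → ℕ) :=
    (Fintype.piFinset fun _ => range (n + 1)).filter fun v => ∑ j, v j ≤ n
  have hS : ∀ v : Fin (128 * a) → ℕ, ∑ j, v j ≤ n → v ∈ S := by
    intro v hv
    simp only [S, mem_filter, Fintype.mem_piFinset, mem_range]
    refine ⟨fun j => Nat.lt_succ_of_le (le_trans ?_ hv), hv⟩
    exact Finset.single_le_sum (f := v) (fun _ _ => Nat.zero_le _) (mem_univ j)
  have hScard : (S.card : ℝ) ≤ ((n : ℝ) + 1) ^ (128 * a) := by
    have h1 : S.card ≤ (n + 1) ^ (128 * a) := by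
      refine (Finset.card_filter_le _ _).trans ?_
      simp [Fintype.card_piFinset]
    exact_mod_cast h1
  have hX : ∀ ω J v, |(sampleFn (s := 128 * a) (2 ^ b) F n ω J v : ℝ)| ≤ 1 := by
    intro ω J v
    have := hF1 (ω.1 * n + ∑ j, ω.2 j - ((2 ^ b : ℕ) : ZMod (128 * 2 ^ b)) *
      ((∑ j ∈ Jᶜ, (ω.1 * (v j : ZMod (128 * 2 ^ b)) + ω.2 j).val / 2 ^ b : ℕ) :
      ZMod (128 * 2 ^ b)))
    unfold sampleFn
    exact_mod_cast this
  obtain ⟨ω, hω⟩ := sampling S
    (fun v (ω : ZMod (128 * 2 ^ b) × (Fin (128 * a) → ZMod (128 * 2 ^ b))) =>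
      if ∑ j, v j = n then δ / 2 - (sampleFn (2 ^ b) F n ω ∅ v : ℝ)
      else (sampleFn (2 ^ b) F n ω ∅ v : ℝ) - δ / 2) (δ / 2) (by linarith) (by linarith)
    (by
      intro v _ ω
      have := abs_le.1 (hX ω ∅ v)
      split_ifs <;> rw [abs_le] <;> constructor <;> linarith [this.1, this.2])
    (by
      intro v hv
      have hv' : ∑ j, v j ≤ n := (Finset.mem_filter.1 hv).2
      by_cases h : ∑ j, v j = n
      · simp only [h, if_true, Finset.sum_sub_distrib, Finset.sum_const, Finset.card_univ,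
          nsmul_eq_mul]
        have := hF2 v
        rw [h] at this
        linarith
      · simp only [h, if_false, Finset.sum_sub_distrib, Finset.sum_const, Finset.card_univ,
          nsmul_eq_mul]
        rw [hF3 v n (lt_of_le_of_ne hv' h) hn]
        linarith) T
    (lt_of_le_of_lt (mul_le_mul_of_nonneg_right hScard (Real.exp_pos _).le) hT2)
  refine colouring_of_cylinders (by omega) (2 ^ a)
    (fun J v => ∑ i, (-1) ^ J.card * sampleFn (2 ^ b) F n (ω i) J v) ?_ ?_ ?_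
  · intro J v v' hvv
    refine Finset.sum_congr rfl fun i _ => ?_
    unfold sampleFn
    congr 5
    refine Finset.sum_congr rfl fun j hj => ?_
    rw [hvv j (Finset.mem_compl.1 hj)]
  · intro v
    rw [Finset.sum_comm]
    apply Finset.dvd_sum
    intro i _
    have := cylinder_identity (ι := Fin (128 * a)) 7 a (by norm_num)
      (fun x => F ((ω i).1 * n + ∑ j, (ω i).2 j -
        ((2 ^ b : ℕ) : ZMod (128 * 2 ^ b)) * (x : ZMod (128 * 2 ^ b))))
      (by
        intro x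
        have h0 : ((2 ^ b : ℕ) : ZMod (128 * 2 ^ b)) * ((2 ^ 7 : ℕ) : ZMod (128 * 2 ^ b)) = 0 := by
          rw [← Nat.cast_mul, show 2 ^ b * 2 ^ 7 = 128 * 2 ^ b by ring, ZMod.natCast_self]
        rw [Nat.cast_add, mul_add, h0, add_zero])
      (fun j => ((ω i).1 * (v j : ZMod (128 * 2 ^ b)) + (ω i).2 j).val / 2 ^ b) (by simp)
    push_cast
    exact this
  · intro v v' hv hv' hdvd
    have h1 := hω v (hS v hv.le)
    have h2 := hω v' (hS v' hv'.le)
    simp only [hv, if_true, Finset.sum_sub_distrib] at h1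
    simp only [hv'.ne, if_false, Finset.sum_sub_distrib] at h2
    simp only [Finset.card_empty, pow_zero, one_mul] at hdvd
    have h3 : ∑ i, (sampleFn (2 ^ b) F n (ω i) ∅ v : ℝ) ≤ T := by
      calc _ ≤ ∑ _i : Fin T, (1 : ℝ) := Finset.sum_le_sum fun i _ => (abs_le.1 (hX _ _ _)).2
        _ = T := by simp
    have h4 : -(T : ℝ) ≤ ∑ i, (sampleFn (2 ^ b) F n (ω i) ∅ v' : ℝ) := by
      calc -(T : ℝ) = ∑ _i : Fin T, (-1 : ℝ) := by simp
        _ ≤ _ := Finset.sum_le_sum fun i _ => (abs_le.1 (hX _ _ _)).1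
    have h5 : (0 : ℤ) < ∑ i, sampleFn (2 ^ b) F n (ω i) ∅ v -
        ∑ i, sampleFn (2 ^ b) F n (ω i) ∅ v' := by
      have : (0 : ℝ) < ∑ i, (sampleFn (2 ^ b) F n (ω i) ∅ v : ℝ) -
        ∑ i, (sampleFn (2 ^ b) F n (ω i) ∅ v' : ℝ) := by linarith
      exact_mod_cast this
    have h6 := Int.le_of_dvd h5 hdvd
    have h7 : ((2 ^ a : ℕ) : ℝ) ≤ ∑ i, (sampleFn (2 ^ b) F n (ω i) ∅ v : ℝ) -
        ∑ i, (sampleFn (2 ^ b) F n (ω i) ∅ v' : ℝ) := by exact_mod_cast h6
    have h8 : ((2 * T : ℕ) : ℝ) < ((2 ^ a : ℕ) : ℝ) := by exact_mod_cast hT1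
    push_cast at h7 h8
    linarith

theorem growth_aux {y : ℕ} (hy : 30 ≤ y) : (2 : ℝ) ^ 17 * y < (7 / 4 : ℝ) ^ y := by
  induction y, hy using Nat.le_induction with
  | base => norm_num
  | succ y hy ih =>
    have : (30 : ℝ) ≤ y := by exact_mod_cast hy
    push_cast
    rw [pow_succ (7 / 4 : ℝ)]
    nlinarith

/-- With `512 y` letters and `2^(2048 y^2)` colours the cube of dimension `2^(2^y)` has a
colouring without monochromatic combinatorial line. -/
theorem many_colours {y : ℕ} (hy : 30 ≤ y) :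
    ∃ W : (Fin (2 ^ 2 ^ y) → Fin (128 * (4 * y))) → (Fin (128 * (4 * y)) → ZMod (2 ^ (4 * y))),
      ∀ l : Line (Fin (128 * (4 * y))) (Fin (2 ^ 2 ^ y)), ¬ l.IsMono W := by
  obtain ⟨z, hz⟩ : ∃ z, 4 * y = z + 2 := ⟨4 * y - 2, by omega⟩
  refine many_colours_core (4 * y) (2 ^ y) (2 ^ 2 ^ y) (2 ^ z) (by omega) le_rfl ?_ ?_
  · rw [hz, pow_add]
    have : 0 < 2 ^ z := by positivity
    omega
  · have hy' : (30 : ℝ) ≤ y := by exact_mod_cast hy
    have h1 : (((2 ^ 2 ^ y : ℕ) : ℝ) + 1) ≤ Real.exp ((2 ^ y : ℕ) : ℝ) := by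
      have e1 : Real.exp ((2 ^ y : ℕ) : ℝ) = Real.exp 1 ^ (2 ^ y) := by
        rw [← Real.exp_nat_mul, mul_one]
      have e2 : (5 / 2 : ℝ) ≤ Real.exp 1 := by linarith [Real.exp_one_gt_d9]
      have e3 : ∀ m : ℕ, 2 ≤ m → (2 : ℝ) ^ m + 1 ≤ (5 / 2) ^ m := by
        intro m hm
        induction m, hm using Nat.le_induction with
        | base => norm_num
        | succ m hm ih =>
          rw [pow_succ, pow_succ]
          have : (0 : ℝ) < 2 ^ m := by positivity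
          nlinarith
      have e4 : 2 ≤ 2 ^ y := by
        calc 2 = 2 ^ 1 := by norm_num
          _ ≤ 2 ^ y := Nat.pow_le_pow_right (by norm_num) (by omega)
      rw [e1]
      push_cast
      exact (e3 _ e4).trans (pow_le_pow_left₀ (by norm_num) e2 _)
    have h2 : (((2 ^ 2 ^ y : ℕ) : ℝ) + 1) ^ (128 * (4 * y)) ≤
        Real.exp (((128 * (4 * y) : ℕ) : ℝ) * ((2 ^ y : ℕ) : ℝ)) := by
      rw [Real.exp_nat_mul]
      exact pow_le_pow_left₀ (by positivity) h1 _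
    refine lt_of_le_of_lt (mul_le_mul_of_nonneg_right h2 (Real.exp_pos _).le) ?_
    rw [← Real.exp_add, Real.exp_lt_one_iff]
    have h3 : (11 / 16 : ℝ) ≤ (1 - 20 / 16384 : ℝ) ^ 256 := by
      have := one_add_mul_le_pow (a := (-(20 / 16384) : ℝ)) (by norm_num) 256
      have e : (1 : ℝ) + -(20 / 16384) = 1 - 20 / 16384 := by ring
      rw [e] at this
      refine le_trans ?_ this
      norm_num
    have h4 : (11 / 16 : ℝ) ^ (4 * y) ≤ ((1 - 20 / 16384 : ℝ) ^ (128 * (4 * y))) ^ 2 := by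
      rw [← pow_mul, show 128 * (4 * y) * 2 = 256 * (4 * y) by ring, pow_mul _ 256]
      exact pow_le_pow_left₀ (by norm_num) h3 _
    have h5 : ((2 ^ z : ℕ) : ℝ) = 2 ^ (4 * y) / 4 := by
      rw [hz, pow_add]; push_cast; ring
    have h6 : (2 : ℝ) ^ y * (7 / 4) ^ y ≤ 2 ^ (4 * y) * (11 / 16) ^ (4 * y) := by
      rw [← mul_pow, ← mul_pow, pow_mul]
      exact pow_le_pow_left₀ (by norm_num) (by norm_num) _
    have h7 := growth_aux hy
    have h8 : (0 : ℝ) < 2 ^ y := by positivity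
    have h9 : (2 : ℝ) ^ y * (2 ^ 17 * y) < 2 ^ y * (7 / 4) ^ y := mul_lt_mul_of_pos_left h7 h8
    have h10 : (2 : ℝ) ^ (4 * y) * (11 / 16) ^ (4 * y) ≤
        2 ^ (4 * y) * ((1 - 20 / 16384 : ℝ) ^ (128 * (4 * y))) ^ 2 :=
      mul_le_mul_of_nonneg_left h4 (by positivity)
    rw [h5, div_pow]
    push_cast
    generalize ((1 - 20 / 16384 : ℝ) ^ (128 * (4 * y))) ^ 2 = A at *
    generalize (2 : ℝ) ^ (4 * y) = B at *
    nlinarith

end Pool.Agent.P.MP_838999_co
end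

-- part Pool.Agent.P.MP_838999_co.Main
section

namespace Pool.Agent.P.MP_838999_co

open Finset Combinatorics

theorem lt_HJ_of {k y : ℕ} (hk : 2 ≤ k) (hy : 30 ≤ y)
    (h : 20 * 2 ^ 29 * (y : ℝ) ^ 4 * Real.log k ≤ k) : 2 ^ 2 ^ y < HJ k := by
  obtain ⟨W, hW⟩ := many_colours hy
  have hcard : Fintype.card (Fin (128 * (4 * y)) → ZMod (2 ^ (4 * y))) =
      2 ^ (4 * y * (128 * (4 * y))) := by
    rw [Fintype.card_fun, ZMod.card, Fintype.card_fin, ← pow_mul]
  refine lt_HJ (by omega) (twoColourable_of_colouring (by omega) ?_ hk ?_ W hW)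
  · rw [hcard]
    calc 2 = 2 ^ 1 := by norm_num
      _ ≤ _ := Nat.pow_le_pow_right (by norm_num) (Nat.mul_pos (by omega) (by omega))
  · rw [hcard]
    refine le_trans ?_ h
    apply mul_le_mul_of_nonneg_right _ (Real.log_natCast_nonneg k)
    push_cast
    rw [Real.log_pow]
    push_cast
    have h1 := Real.log_two_lt_d9
    have h2 : (0 : ℝ) ≤ (y : ℝ) ^ 4 := by positivity
    nlinarith

theorem double_exponential :
    ∃ c : ℝ, 0 < c ∧ ∃ k₀ : ℕ, ∀ k : ℕ, k₀ ≤ k →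
      (2 : ℝ) ^ (2 : ℝ) ^ (c * ((k : ℝ) / Real.log k) ^ (1 / 4 : ℝ)) ≤ HJ k := by
  refine ⟨1 / 1024, by norm_num, ?_⟩
  have h1 := Real.isLittleO_log_id_atTop.bound (c := 1 / 30720 ^ 4) (by positivity)
  obtain ⟨k₀, hk₀⟩ := Filter.eventually_atTop.1
    ((tendsto_natCast_atTop_atTop (R := ℝ)).eventually h1)
  refine ⟨max k₀ 2, fun k hk => ?_⟩
  have hk2 : 2 ≤ k := le_trans (le_max_right _ _) hk
  have hk2' : (2 : ℝ) ≤ k := by exact_mod_cast hk2
  have hlog : 0 < Real.log k := Real.log_pos (by linarith)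
  have h2 := hk₀ k (le_trans (le_max_left _ _) hk)
  simp only [id, Real.norm_eq_abs] at h2
  rw [abs_of_pos hlog, abs_of_pos (by linarith)] at h2
  set x : ℝ := ((k : ℝ) / Real.log k) ^ (1 / 4 : ℝ) with hx
  have hq : 0 ≤ (k : ℝ) / Real.log k := by positivity
  have hx0 : 0 ≤ x := Real.rpow_nonneg hq _
  have hx4 : x ^ 4 = (k : ℝ) / Real.log k := by
    rw [hx, ← Real.rpow_natCast, ← Real.rpow_mul hq]
    norm_num
  have hx1 : (30720 : ℝ) ≤ x := by
    apply le_of_pow_le_pow_left₀ (n := 4) (by norm_num) hx0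
    rw [hx4, le_div_iff₀ hlog]
    linarith
  set y : ℕ := ⌈1 / 1024 * x⌉₊ with hy
  have hy1 : 1 / 1024 * x ≤ y := Nat.le_ceil _
  have hy2 : (y : ℝ) < 1 / 1024 * x + 1 := Nat.ceil_lt_add_one (by positivity)
  have hy30 : 30 ≤ y := by
    have : ((30 : ℕ) : ℝ) ≤ y := by push_cast; linarith
    exact_mod_cast this
  have hy3 : (y : ℝ) ^ 4 ≤ (x / 512) ^ 4 :=
    pow_le_pow_left₀ (Nat.cast_nonneg _) (by linarith) 4
  have h3 : 20 * 2 ^ 29 * (y : ℝ) ^ 4 * Real.log k ≤ k := by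
    rw [div_pow, hx4] at hy3
    have h4 : (y : ℝ) ^ 4 * Real.log k ≤ k / 512 ^ 4 := by
      have := mul_le_mul_of_nonneg_right hy3 hlog.le
      rwa [show (k : ℝ) / Real.log k / 512 ^ 4 * Real.log k = k / 512 ^ 4 by field_simp] at this
    nlinarith
  have h5 : ((2 ^ 2 ^ y : ℕ) : ℝ) ≤ HJ k := by exact_mod_cast (lt_HJ_of hk2 hy30 h3).le
  refine le_trans ?_ h5
  push_cast
  rw [← Real.rpow_natCast (2 : ℝ) (2 ^ y)]
  apply Real.rpow_le_rpow_of_exponent_le (by norm_num)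
  push_cast
  rw [← Real.rpow_natCast (2 : ℝ) y]
  exact Real.rpow_le_rpow_of_exponent_le (by norm_num) hy1

end Pool.Agent.P.MP_838999_co
end
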